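import Pool.Agent.Helper35.KI.I4

set_option autoImplicit false
set_option maxRecDepth 100000

/-!
# The index step with the design
-/

open Finset

namespace KI

open KF

section
variable {V : Type} [Fintype V]
variable {wa : Fin 6 → V → ℝ}

theorem Et_cons (h : Wa wa) (a : Fin 6) {G : V → (Fin 6 → V) → ℝ}
    (hG : ∀ x y y', (∀ c, c ≠ a → y c = y' c) → G x y = G x y') :
    Et wa (fun y => G (y a) y) = ∑ x, wa a x * Et wa (G x) := by
  classical
  have h1 : ∀ y : Fin 6 → V, G (y a) y = ∑ x, (if y a = x then (1 : ℝ) else 0) * G x y := by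
    intro y
    simp
  rw [Et_congr h1, Et_sum]
  refine sum_congr rfl fun x _ => ?_
  rw [Et_indep (f := fun y => if y a = x then (1 : ℝ) else 0) (g := G x) h (fun c => c = a)
    (fun y y' hy => by rw [hy a rfl]) (fun y y' hy => hG x y y' hy)]
  congr 1
  have := Et_one h a (fun z => if z = x then (1 : ℝ) else 0)
  rw [this]
  simp

theorem Et_two (h : Wa wa) {a b : Fin 6} (hab : b ≠ a) (F : V → V → ℝ) :
    Et wa (fun y => F (y a) (y b)) = ∑ x, wa a x * ∑ z, wa b z * F x z := by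
  rw [Et_cons h a (G := fun x y => F x (y b)) (fun x y y' hy => by rw [hy b hab])]
  exact sum_congr rfl fun x _ => by rw [Et_one h b (F x)]

theorem Et_three (h : Wa wa) {a b c : Fin 6} (hab : b ≠ a) (hac : c ≠ a) (hbc : c ≠ b)
    (F : V → V → V → ℝ) : Et wa (fun y => F (y a) (y b) (y c)) =
      ∑ x, wa a x * ∑ z, wa b z * ∑ u, wa c u * F x z u := by
  rw [Et_cons h a (G := fun x y => F x (y b) (y c)) (fun x y y' hy => by
    rw [hy b hab, hy c hac])]
  exact sum_congr rfl fun x _ => by rw [Et_two h hbc (F x)]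

/-- Density between the classes `a`, `b` in the link of `v`. -/
noncomputable def pv (wa : Fin 6 → V → ℝ) (E : V → V → V → Bool) (v : V) (a b : Fin 6) : ℝ :=
  ∑ x, wa a x * ∑ y, wa b y * b2r (E v x y)

/-- Density of the triples of the classes `a`, `b`, `c` which are not edges. -/
noncomputable def rv (wa : Fin 6 → V → ℝ) (E : V → V → V → Bool) (a b c : Fin 6) : ℝ :=
  ∑ x, wa a x * ∑ y, wa b y * ∑ z, wa c z * b2r (!E x y z)

theorem pa_pb : ∀ e < 15, pb e ≠ pa e := by decide +kernel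

theorem bl_ne : ∀ k < 10, (bl k).2.1 ≠ (bl k).1 ∧ (bl k).2.2 ≠ (bl k).1 ∧
    (bl k).2.2 ≠ (bl k).2.1 := by decide +kernel

theorem pe_eq (h : Wa wa) (E : V → V → V → Bool) (v : V) {e : ℕ} (he : e < 15) :
    pe wa E v e = pv wa E v (pa e) (pb e) := by
  unfold pe tp
  exact Et_two h (pa_pb e he) fun x y => b2r (E v x y)

theorem re_eq (h : Wa wa) (E : V → V → V → Bool) {k : ℕ} (hk : k < 10) :
    re wa E k = rv wa E (bl k).1 (bl k).2.1 (bl k).2.2 := by
  obtain ⟨h1, h2, h3⟩ := bl_ne k hk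
  unfold re mp
  exact Et_three h h1 h2 h3 fun x y z => b2r (!E x y z)

omit [Fintype V] in
theorem sum_swap' [Fintype V] (u w : V → ℝ) (F : V → V → ℝ) :
    ∑ x, u x * ∑ y, w y * F x y = ∑ y, w y * ∑ x, u x * F x y := by
  simp only [mul_sum]
  rw [sum_comm]
  exact sum_congr rfl fun y _ => sum_congr rfl fun x _ => by ring

theorem pv_symm {E : V → V → V → Bool} (hE : K4m E) (v : V) (a b : Fin 6) :
    pv wa E v a b = pv wa E v b a := by
  unfold pv
  rw [sum_swap']
  refine sum_congr rfl fun y _ => ?_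
  congr 1
  exact sum_congr rfl fun x _ => by rw [hE.s23]

theorem rv_12 {E : V → V → V → Bool} (hE : K4m E) (a b c : Fin 6) :
    rv wa E a b c = rv wa E b a c := by
  unfold rv
  rw [sum_swap' (wa a) (wa b) fun x y => ∑ z, wa c z * b2r (!E x y z)]
  refine sum_congr rfl fun y _ => ?_
  congr 1
  refine sum_congr rfl fun x _ => ?_
  congr 1
  exact sum_congr rfl fun z _ => by rw [hE.s12]

theorem rv_23 {E : V → V → V → Bool} (hE : K4m E) (a b c : Fin 6) :
    rv wa E a b c = rv wa E a c b := by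
  unfold rv
  refine sum_congr rfl fun x _ => ?_
  congr 1
  rw [sum_swap' (wa b) (wa c) fun y z => b2r (!E x y z)]
  refine sum_congr rfl fun z _ => ?_
  congr 1
  exact sum_congr rfl fun y _ => by rw [hE.s23]

/-- Sums over pairs. -/
theorem sum15 (F : Fin 6 → Fin 6 → ℝ) (hF : ∀ a b, F a b = F b a) :
    ∑ e ∈ range 15, F (pa e) (pb e) = 1 / 2 * ∑ a, ∑ b, if a = b then 0 else F a b := by
  simp only [Finset.sum_range_succ, Finset.sum_range_zero, Fin.sum_univ_six, pa, pb,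
    List.getD_cons_zero, List.getD_cons_succ]
  simp only [Fin.reduceEq, if_true, if_false, Fin.isValue]
  rw [hF 1 0, hF 2 0, hF 2 1, hF 3 0, hF 3 1, hF 3 2, hF 4 0, hF 4 1, hF 4 2, hF 4 3, hF 5 0,
    hF 5 1, hF 5 2, hF 5 3, hF 5 4]
  ring

/-- The pairs of the pentagons. -/
def c5L (i : ℕ) : List ℕ :=
  ([[2, 4, 8, 13, 14], [1, 3, 9, 12, 14], [0, 6, 9, 11, 13], [0, 7, 8, 10, 12], [1, 4, 5, 10, 11],
    [2, 3, 5, 6, 7]] : List (List ℕ)).getD i []

theorem ents_e : ∀ i < 6, (ents.filter fun x => x.i == i).map Ent.e = c5L i := by decide +kernel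

/-- Sums over pentagons. -/
theorem sum5 (F : Fin 6 → Fin 6 → ℝ) (hF : ∀ a b, F a b = F b a) (i : Fin 6) :
    ((c5L i).map fun e => F (pa e) (pb e)).sum = 1 / 2 * ∑ a, ∑ b, b2r (D6 i a b) * F a b := by
  have hb : ∀ i a b, b2r (D6 i a b) = if D6 i a b = true then 1 else 0 := fun _ _ _ => rfl
  have hs : ∀ a b : Fin 6, F a b = if a ≤ b then F a b else F b a := by
    intro a b
    split
    · rfl
    · exact hF a b
  fin_cases i
  all_goals
    simp only [c5L, pa, pb, Fin.sum_univ_six, List.getD_cons_zero, List.getD_cons_succ,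
      List.map_cons, List.sum_cons, List.map_nil, List.sum_nil, hb]
    simp [D6]
    try rw [hF 1 0]
    try rw [hF 2 0]
    try rw [hF 2 1]
    try rw [hF 3 0]
    try rw [hF 3 1]
    try rw [hF 3 2]
    try rw [hF 4 0]
    try rw [hF 4 1]
    try rw [hF 4 2]
    try rw [hF 4 3]
    try rw [hF 5 0]
    try rw [hF 5 1]
    try rw [hF 5 2]
    try rw [hF 5 3]
    try rw [hF 5 4]
    try ring

/-- Sums over blocks. -/
theorem sum10 (G : Fin 6 → Fin 6 → Fin 6 → ℝ) (h12 : ∀ a b c, G a b c = G b a c)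
    (h23 : ∀ a b c, G a b c = G a c b) :
    ∑ k ∈ range 10, G (bl k).1 (bl k).2.1 (bl k).2.2 =
      1 / 6 * ∑ a, ∑ b, ∑ c, b2r (D6 a b c) * G a b c := by
  have hb : ∀ i a b, b2r (D6 i a b) = if D6 i a b = true then 1 else 0 := fun _ _ _ => rfl
  have p6 : ∀ a b c, G a c b = G a b c ∧ G b a c = G a b c ∧ G b c a = G a b c ∧
      G c a b = G a b c ∧ G c b a = G a b c := by
    intro a b c
    refine ⟨h23 _ _ _, h12 _ _ _, ?_, ?_, ?_⟩
    · rw [h23, h12]
    · rw [h12, h23]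
    · rw [h12, h23, h12]
  obtain ⟨u01, u02, u03, u04, u05⟩ := p6 0 1 2
  obtain ⟨u11, u12, u13, u14, u15⟩ := p6 0 1 3
  obtain ⟨u21, u22, u23, u24, u25⟩ := p6 0 2 4
  obtain ⟨u31, u32, u33, u34, u35⟩ := p6 0 3 5
  obtain ⟨u41, u42, u43, u44, u45⟩ := p6 0 4 5
  obtain ⟨u51, u52, u53, u54, u55⟩ := p6 1 2 5
  obtain ⟨u61, u62, u63, u64, u65⟩ := p6 1 3 4
  obtain ⟨u71, u72, u73, u74, u75⟩ := p6 1 4 5
  obtain ⟨u81, u82, u83, u84, u85⟩ := p6 2 3 4
  obtain ⟨u91, u92, u93, u94, u95⟩ := p6 2 3 5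
  simp only [bl, Fin.sum_univ_six, Finset.sum_range_succ, Finset.sum_range_zero,
    List.getD_cons_zero, List.getD_cons_succ, hb]
  simp [D6]
  linarith

/-- The missing pairs of a pentagon. -/
theorem De_eq (h : Wa wa) {E : V → V → V → Bool} (hE : K4m E) (v : V) (i : Fin 6) :
    De wa E v i = 1 / 2 * ∑ a, ∑ b, b2r (D6 i a b) * (1 - pv wa E v a b) := by
  rw [← sum5 (fun a b => 1 - pv wa E v a b) (fun a b => by rw [pv_symm hE v a b]) i,
    ← ents_e i i.2, List.map_map]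
  unfold De
  congr 1
  refine List.map_congr_left fun x hx => ?_
  simp only [Function.comp_apply]
  rw [pe_eq h E v (ents_lt x (List.mem_filter.1 hx).1).1]

theorem sum_pe (h : Wa wa) {E : V → V → V → Bool} (hE : K4m E) (v : V) :
    ∑ e ∈ range 15, pe wa E v e = 1 / 2 * ∑ a, ∑ b, if a = b then 0 else pv wa E v a b := by
  rw [← sum15 (pv wa E v) (pv_symm hE v)]
  exact sum_congr rfl fun e he => pe_eq h E v (mem_range.1 he)

theorem sum_re (h : Wa wa) {E : V → V → V → Bool} (hE : K4m E) :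
    ∑ k ∈ range 10, re wa E k = 1 / 6 * ∑ a, ∑ b, ∑ c, b2r (D6 a b c) * rv wa E a b c := by
  rw [← sum10 (rv wa E) (rv_12 hE) (rv_23 hE)]
  exact sum_congr rfl fun k hk => re_eq h E (mem_range.1 hk)

/-- **The index step**, with `D = 5 - P`, `P` the expected number of pairs, `R` the expected number
of missing blocks, `Δ i` the expected number of missing pairs of the pentagon of `i`. -/
theorem index_step' {E : V → V → V → Bool} (hE : K4m E) (h : Wa wa) (v : V) {P R : ℝ}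
    (hP : P = 1 / 2 * ∑ a, ∑ b, if a = b then 0 else pv wa E v a b)
    (hR : R = 1 / 6 * ∑ a, ∑ b, ∑ c, b2r (D6 a b c) * rv wa E a b c) :
    ∃ i : Fin 6, (1 - (5 - P) - 3 / 2 * R) *
        (1 / 2 * ∑ a, ∑ b, b2r (D6 i a b) * (1 - pv wa E v a b)) ≤
      (2 * (5 - P) + 4 * R) *
        (1 - (1 / 2 * ∑ a, ∑ b, b2r (D6 i a b) * (1 - pv wa E v a b)) / 5) := by
  obtain ⟨i, hi, h1⟩ := index_step hE h v
  refine ⟨⟨i, hi⟩, ?_⟩
  rw [sum_pe h hE v, sum_re h hE, ← hP, ← hR] at h1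
  rw [← De_eq h hE v ⟨i, hi⟩]
  exact h1

end

end KI
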