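import Mathlib

set_option autoImplicit false
set_option maxRecDepth 100000

/-!
# Link patterns on six classes

`t e`: the pair number `e = b (b - 1) / 2 + a` (`a < b < 6`) is in the pattern, `m k`: the block
number `k` is missing.
-/

namespace KI

/-- Index, pair, values on the pairs disjoint from it, blocks disjoint from it. -/
structure Ent where
  /-- index -/
  i : ℕ
  /-- pair -/
  e : ℕ
  /-- values on the other four classes -/
  r : List (ℕ × Bool)
  /-- blocks in the other four classes -/
  b : List ℕ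

/-- The pairs of the six pentagons, with the rest of the pentagon. -/
def ents : List Ent :=
  [⟨0, 2, [(3, false), (6, false), (9, false), (10, false), (13, true), (14, true)], [3, 4]⟩,
   ⟨0, 4, [(1, false), (6, false), (8, true), (10, false), (12, false), (14, true)], [2, 4]⟩,
   ⟨0, 8, [(0, false), (3, false), (4, true), (10, false), (11, false), (13, true)], [1, 3]⟩,
   ⟨0, 13, [(0, false), (1, false), (2, true), (6, false), (7, false), (8, true)], [0, 2]⟩,
   ⟨0, 14, [(0, false), (1, false), (2, true), (3, false), (4, true), (5, false)], [0, 1]⟩,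
   ⟨1, 1, [(4, false), (7, false), (9, true), (11, false), (13, false), (14, true)], [6, 7]⟩,
   ⟨1, 3, [(2, false), (7, false), (8, false), (11, false), (12, true), (14, true)], [5, 7]⟩,
   ⟨1, 9, [(0, false), (1, true), (2, false), (10, false), (11, false), (12, true)], [0, 5]⟩,
   ⟨1, 12, [(0, false), (3, true), (4, false), (6, false), (7, false), (9, true)], [1, 6]⟩,
   ⟨1, 14, [(0, false), (1, true), (2, false), (3, true), (4, false), (5, false)], [0, 1]⟩,
   ⟨2, 0, [(5, false), (8, false), (9, true), (12, false), (13, true), (14, false)], [8, 9]⟩,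
   ⟨2, 6, [(2, false), (4, false), (5, false), (11, true), (12, false), (13, true)], [5, 9]⟩,
   ⟨2, 9, [(0, true), (1, false), (2, false), (10, false), (11, true), (12, false)], [0, 5]⟩,
   ⟨2, 11, [(1, false), (3, false), (5, false), (6, true), (8, false), (9, true)], [2, 8]⟩,
   ⟨2, 13, [(0, true), (1, false), (2, false), (6, true), (7, false), (8, false)], [0, 2]⟩,
   ⟨3, 0, [(5, false), (8, true), (9, false), (12, true), (13, false), (14, false)], [8, 9]⟩,
   ⟨3, 7, [(1, false), (3, false), (5, false), (10, true), (12, true), (13, false)], [3, 9]⟩,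
   ⟨3, 8, [(0, true), (3, false), (4, false), (10, true), (11, false), (13, false)], [1, 3]⟩,
   ⟨3, 10, [(2, false), (4, false), (5, false), (7, true), (8, true), (9, false)], [6, 8]⟩,
   ⟨3, 12, [(0, true), (3, false), (4, false), (6, false), (7, true), (9, false)], [1, 6]⟩,
   ⟨4, 1, [(4, true), (7, false), (9, false), (11, true), (13, false), (14, false)], [6, 7]⟩,
   ⟨4, 4, [(1, true), (6, false), (8, false), (10, true), (12, false), (14, false)], [2, 4]⟩,
   ⟨4, 5, [(0, false), (6, false), (7, false), (10, true), (11, true), (14, false)], [4, 7]⟩,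
   ⟨4, 10, [(2, false), (4, true), (5, true), (7, false), (8, false), (9, false)], [6, 8]⟩,
   ⟨4, 11, [(1, true), (3, false), (5, true), (6, false), (8, false), (9, false)], [2, 8]⟩,
   ⟨5, 2, [(3, true), (6, true), (9, false), (10, false), (13, false), (14, false)], [3, 4]⟩,
   ⟨5, 3, [(2, true), (7, true), (8, false), (11, false), (12, false), (14, false)], [5, 7]⟩,
   ⟨5, 5, [(0, false), (6, true), (7, true), (10, false), (11, false), (14, false)], [4, 7]⟩,
   ⟨5, 6, [(2, true), (4, false), (5, true), (11, false), (12, false), (13, false)], [5, 9]⟩,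
   ⟨5, 7, [(1, false), (3, true), (5, true), (10, false), (12, false), (13, false)], [3, 9]⟩]

/-- The three pairs of the blocks. -/
def blk : List (ℕ × ℕ × ℕ) :=
  [(0, 1, 2), (0, 3, 4), (1, 6, 8), (3, 10, 13), (6, 10, 14), (2, 11, 12), (4, 7, 9), (7, 11, 14),
    (5, 8, 9), (5, 12, 13)]

/-- The three pairs of the triples. -/
def tris : List (ℕ × ℕ × ℕ) :=
  [(0, 1, 2), (0, 3, 4), (0, 6, 7), (0, 10, 11), (1, 3, 5), (1, 6, 8), (1, 10, 12), (3, 6, 9),
    (3, 10, 13), (6, 10, 14), (2, 4, 5), (2, 7, 8), (2, 11, 12), (4, 7, 9), (4, 11, 13),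
    (7, 11, 14), (5, 8, 9), (5, 12, 13), (8, 12, 14), (9, 13, 14)]

/-- The six pentagons as numbers. -/
def c5 : List ℕ := [24852, 21002, 10817, 5505, 3122, 236]

/-- Two of three. -/
def two3 (a b c : Bool) : Bool := (a && b) || (a && c) || (b && c)

/-- At least two pairs of the block `k` are in the pattern. -/
def two (t : ℕ → Bool) (k : ℕ) : Bool :=
  two3 (t (blk.getD k (0, 0, 0)).1) (t (blk.getD k (0, 0, 0)).2.1) (t (blk.getD k (0, 0, 0)).2.2)

/-- The condition of an entry. -/
def cnd (t m : ℕ → Bool) (x : Ent) : Bool :=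
  !t x.e && (x.r.all (fun q => t q.1 == q.2) && x.b.all (fun k => !m k))

/-- Number of entries with the condition. -/
def nn (t m : ℕ → Bool) : ℕ := ents.countP (cnd t m)

/-- Number of pairs. -/
def nt (t : ℕ → Bool) : ℕ := (List.range 15).countP t

/-- Number of missing blocks. -/
def nm (m : ℕ → Bool) : ℕ := (List.range 10).countP m

/-- The pattern is the pentagon `i`, and no block is missing. -/
def prf (t m : ℕ → Bool) (i : ℕ) : Bool :=
  ((List.range 15).all fun e => t e == (c5.getD i 0).testBit e) &&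
    (List.range 10).all fun k => !m k

/-- Validity of a pattern. -/
structure Val (t m : ℕ → Bool) : Prop where
  tri : ∀ x ∈ tris, (t x.1 && (t x.2.1 && t x.2.2)) = false
  two : ∀ k < 10, two t k = true → m k = true

/-- Bit. -/
def bt (T e : ℕ) : Bool := Nat.beq (Nat.land (Nat.shiftRight T e) 1) 1

theorem bt_eq (T e : ℕ) : bt T e = T.testBit e := by
  unfold bt
  have h1 : Nat.land (Nat.shiftRight T e) 1 = T / 2 ^ e % 2 := by
    change (T >>> e) &&& 1 = _
    rw [Nat.and_one_is_mod, Nat.shiftRight_eq_div_pow]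
  rw [h1, Nat.testBit_eq_decide_div_mod_eq]
  rw [Bool.eq_iff_iff, Nat.beq_eq]
  simp

/-- The blocks with at least two pairs, for the kernel. -/
def twoK (T : ℕ) (x : ℕ × ℕ × ℕ) : Bool := two3 (bt T x.1) (bt T x.2.1) (bt T x.2.2)

/-- The mask of the blocks with at least two pairs. -/
def need (T : ℕ) : List (ℕ × ℕ × ℕ) → ℕ
  | [] => 0
  | x :: l => Nat.add (Nat.mul 2 (need T l)) (Bool.rec 0 1 (twoK T x))

/-- Count over a list. -/
def cnt {α : Type} (p : α → Bool) : List α → ℕ → ℕ
  | [], n => n
  | x :: l, n => cnt p l (Bool.rec n (Nat.succ n) (p x))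

/-- The test for the pattern `T`, with `N` the mask of the blocks with two pairs. -/
def chk2 (T N : ℕ) (nT nN : ℕ) : Bool :=
  Nat.ble (Nat.mul 2 nT) (Nat.add 10 nN) &&
    (Nat.ble (cnt (fun x => cnd (bt T) (bt N) x) ents (Nat.mul 2 nT)) (Nat.add 10 (Nat.mul 4 nN)) &&
    (Nat.ble 1 nN || Nat.ble (Nat.add (Nat.mul 2 nT) 2)
      (Nat.add 10 (Nat.mul 2 (cnt (fun c => Nat.beq c T) c5 0)))))

/-- The test for the pattern `T`. -/
def chk (T : ℕ) : Bool :=
  !(tris.all fun x => !(bt T x.1 && (bt T x.2.1 && bt T x.2.2))) ||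
    chk2 T (need T blk) (cnt (bt T) (List.range 15) 0) (cnt (bt (need T blk)) (List.range 10) 0)

/-- All numbers `T 2 ^ k + S` with `S < 2 ^ k`. -/
def allB (f : ℕ → Bool) : ℕ → ℕ → Bool
  | 0, T => f T
  | k + 1, T => allB f k (Nat.mul 2 T) && allB f k (Nat.add (Nat.mul 2 T) 1)

theorem allB_spec (f : ℕ → Bool) : ∀ (k T : ℕ), allB f k T = true →
    ∀ S < 2 ^ k, f (T * 2 ^ k + S) = true
  | 0, T, h, S, hS => by
    have : S = 0 := by simpa using hS
    subst this
    simpa [allB] using h
  | k + 1, T, h, S, hS => by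
    unfold allB at h
    rw [Bool.and_eq_true] at h
    by_cases h1 : S < 2 ^ k
    · have := allB_spec f k _ h.1 S h1
      have e : Nat.mul 2 T * 2 ^ k + S = T * 2 ^ (k + 1) + S := by
        simp only [Nat.mul_eq]
        ring
      rwa [e] at this
    · have := allB_spec f k _ h.2 (S - 2 ^ k) (by rw [pow_succ] at hS; omega)
      have e : Nat.add (Nat.mul 2 T) 1 * 2 ^ k + (S - 2 ^ k) = T * 2 ^ (k + 1) + S := by
        simp only [Nat.mul_eq, Nat.add_eq]
        have : S = 2 ^ k + (S - 2 ^ k) := by omega
        conv_rhs => rw [this]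
        ring
      rwa [e] at this

theorem chk_allB : allB chk 15 0 = true := by decide +kernel

theorem chk_all {T : ℕ} (hT : T < 2 ^ 15) : chk T = true := by
  have := allB_spec chk 15 0 chk_allB T hT
  simpa using this

end KI
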