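import Pool.Agent.Helper35.KI.I1

set_option autoImplicit false

/-!
# The two inequalities for link patterns
-/

namespace KI

theorem cnt_eq {α : Type} (p : α → Bool) : ∀ (l : List α) (n : ℕ), cnt p l n = n + l.countP p
  | [], n => by simp [cnt]
  | x :: l, n => by
    unfold cnt
    rw [cnt_eq p l, List.countP_cons]
    cases h : p x
    · simp
    · simp
      ring

/-- All the indices of pairs in the tables are below 15, those of blocks below 10. -/
theorem ents_lt : ∀ x ∈ ents, x.e < 15 ∧ (∀ q ∈ x.r, q.1 < 15) ∧ ∀ k ∈ x.b, k < 10 := by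
  decide +kernel

theorem blk_lt : ∀ k < 10, (blk.getD k (0, 0, 0)).1 < 15 ∧ (blk.getD k (0, 0, 0)).2.1 < 15 ∧
    (blk.getD k (0, 0, 0)).2.2 < 15 := by decide +kernel

theorem tris_lt : ∀ x ∈ tris, x.1 < 15 ∧ x.2.1 < 15 ∧ x.2.2 < 15 := by decide +kernel

theorem cnd_congr {t m t' m' : ℕ → Bool} (ht : ∀ e < 15, t e = t' e) (hm : ∀ k < 10, m k = m' k)
    {x : Ent} (hx : x ∈ ents) : cnd t m x = cnd t' m' x := by
  obtain ⟨h1, h2, h3⟩ := ents_lt x hx
  have e2 : (x.r.all fun q => t q.1 == q.2) = x.r.all fun q => t' q.1 == q.2 := by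
    rw [Bool.eq_iff_iff]
    simp only [List.all_eq_true]
    exact forall₂_congr fun q hq => by rw [ht _ (h2 q hq)]
  have e3 : (x.b.all fun k => !m k) = x.b.all fun k => !m' k := by
    rw [Bool.eq_iff_iff]
    simp only [List.all_eq_true]
    exact forall₂_congr fun k hk => by rw [hm _ (h3 k hk)]
  unfold cnd
  rw [ht _ h1, e2, e3]

theorem cnd_mono {t m m' : ℕ → Bool} (hm : ∀ k < 10, m' k = true → m k = true)
    {x : Ent} (hx : x ∈ ents) (h : cnd t m x = true) : cnd t m' x = true := by
  obtain ⟨h1, h2, h3⟩ := ents_lt x hx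
  unfold cnd at h ⊢
  simp only [Bool.and_eq_true, List.all_eq_true] at h ⊢
  refine ⟨h.1, h.2.1, fun k hk => ?_⟩
  have h4 := h.2.2 k hk
  by_contra h5
  have h6 : m' k = true := by
    cases hh : m' k
    · simp [hh] at h5
    · rfl
  rw [hm k (h3 k hk) h6] at h4
  exact absurd h4 (by simp)

/-- The code of a pattern. -/
def code (t : ℕ → Bool) : ℕ := Nat.ofBits fun e : Fin 15 => t e

theorem code_lt (t : ℕ → Bool) : code t < 2 ^ 15 := Nat.ofBits_lt_two_pow _

theorem bt_code (t : ℕ → Bool) (e : ℕ) (he : e < 15) : bt (code t) e = t e := by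
  rw [bt_eq, code, Nat.testBit_ofBits_lt _ _ he]

theorem need_bit (T : ℕ) : ∀ (l : List (ℕ × ℕ × ℕ)) (k : ℕ), k < l.length →
    bt (need T l) k = twoK T (l.getD k (0, 0, 0))
  | [], k, h => by simp at h
  | x :: l, 0, _ => by
    rw [bt_eq]
    unfold need
    rw [List.getD_cons_zero]
    cases twoK T x
    · simp only [Nat.mul_eq, Nat.add_eq, add_zero]
      simp
    · simp only [Nat.mul_eq, Nat.add_eq]
      simp
  | x :: l, k + 1, h => by
    rw [bt_eq]
    unfold need
    rw [List.getD_cons_succ, ← need_bit T l k (by simpa using h), bt_eq]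
    cases twoK T x
    · simp only [Nat.mul_eq, Nat.add_eq, add_zero]
      rw [Nat.testBit_succ]
      simp
    · simp only [Nat.mul_eq, Nat.add_eq]
      rw [Nat.testBit_succ]
      congr 1
      omega

/-- The facts for a valid pattern, with `M` the blocks which contain two pairs. -/
theorem pt0 {t m : ℕ → Bool} (h : Val t m) :
    nn t m + 2 * nt t ≤ 10 + 4 * nm m ∧ 2 * nt t ≤ 10 + nm (two t) ∧ nm (two t) ≤ nm m ∧
      (nm (two t) = 0 → 2 * nt t + 2 ≤ 10 + 2 * (List.range 6).countP (fun i =>
        (List.range 15).all fun e => t e == (c5.getD i 0).testBit e)) := by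
  set T := code t with hTd
  have hT := chk_all (code_lt t)
  rw [← hTd] at hT
  have b1 : ∀ e < 15, bt T e = t e := fun e he => bt_code t e he
  have b2 : ∀ k < 10, bt (need T blk) k = two t k := by
    intro k hk
    rw [need_bit T blk k hk]
    obtain ⟨h1, h2, h3⟩ := blk_lt k hk
    unfold twoK two
    rw [b1 _ h1, b1 _ h2, b1 _ h3]
  have c1 : (tris.all fun x => !(bt T x.1 && (bt T x.2.1 && bt T x.2.2))) = true := by
    rw [List.all_eq_true]
    intro x hx
    obtain ⟨h1, h2, h3⟩ := tris_lt x hx
    rw [b1 _ h1, b1 _ h2, b1 _ h3, h.tri x hx]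
    rfl
  unfold chk at hT
  rw [c1] at hT
  simp only [Bool.not_true, Bool.false_or] at hT
  have n1 : cnt (bt T) (List.range 15) 0 = nt t := by
    rw [cnt_eq, zero_add, nt]
    refine List.countP_congr fun e he => ?_
    rw [b1 e (List.mem_range.1 he)]
  have n2 : cnt (bt (need T blk)) (List.range 10) 0 = nm (two t) := by
    rw [cnt_eq, zero_add, nm]
    refine List.countP_congr fun k hk => ?_
    rw [b2 k (List.mem_range.1 hk)]
  rw [n1, n2] at hT
  unfold chk2 at hT
  simp only [Bool.and_eq_true, Bool.or_eq_true, Nat.ble_eq, cnt_eq, Nat.mul_eq, Nat.add_eq,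
    zero_add] at hT
  obtain ⟨g1, g2, g3⟩ := hT
  have m1 : nm (two t) ≤ nm m := by
    unfold nm
    refine List.countP_mono_left fun k hk hh => ?_
    exact h.two k (List.mem_range.1 hk) hh
  have m2 : nn t m ≤ ents.countP (fun x => cnd (bt T) (bt (need T blk)) x) := by
    unfold nn
    refine List.countP_mono_left fun x hx hh => ?_
    rw [cnd_congr (t' := t) (m' := two t) b1 b2 hx]
    exact cnd_mono h.two hx hh
  refine ⟨by omega, by omega, m1, fun h0 => ?_⟩
  rcases g3 with g3 | g3
  · omega
  · refine le_trans g3 ?_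
    have : c5.countP (fun c => Nat.beq c T) ≤ (List.range 6).countP (fun i =>
        (List.range 15).all fun e => t e == (c5.getD i 0).testBit e) := by
      have e1 : c5 = (List.range 6).map (fun i => c5.getD i 0) := by decide
      conv_lhs => rw [e1]
      rw [List.countP_map]
      refine List.countP_mono_left fun i _ hh => ?_
      simp only [Function.comp_apply] at hh
      have h1 : c5.getD i 0 = T := Nat.eq_of_beq_eq_true hh
      rw [List.all_eq_true]
      intro e he
      rw [h1, ← bt_eq, b1 e (List.mem_range.1 he)]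
      simp
    omega

/-- **First inequality.** -/
theorem pt1 {t m : ℕ → Bool} (h : Val t m) : nn t m + 2 * nt t ≤ 10 + 4 * nm m := (pt0 h).1

/-- **Second inequality.** -/
theorem pt2 {t m : ℕ → Bool} (h : Val t m) :
    2 * nt t + 2 ≤ 10 + 2 * (List.range 6).countP (prf t m) + 3 * nm m := by
  obtain ⟨_, h2, h3, h4⟩ := pt0 h
  by_cases h0 : nm m = 0
  · have h5 := h4 (by omega)
    have h6 : (List.range 6).countP (fun i =>
        (List.range 15).all fun e => t e == (c5.getD i 0).testBit e) =
        (List.range 6).countP (prf t m) := by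
      refine List.countP_congr fun i _ => ?_
      unfold prf
      have : ((List.range 10).all fun k => !m k) = true := by
        rw [List.all_eq_true]
        intro k hk
        unfold nm at h0
        have := (List.countP_eq_zero.1 h0) k hk
        simpa using this
      rw [this, Bool.and_true]
    omega
  · omega

end KI
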