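import Pool.Agent.Helper91.KF.F2

set_option autoImplicit false

/-!
# Random transversals
-/

open Finset

namespace KI

open KF

section
variable {V : Type} [Fintype V]

/-- Probability weights of the six classes. -/
structure Wa (wa : Fin 6 → V → ℝ) : Prop where
  nn : ∀ a v, 0 ≤ wa a v
  one : ∀ a, ∑ v, wa a v = 1

/-- Expectation over a random transversal. -/
noncomputable def Et (wa : Fin 6 → V → ℝ) (f : (Fin 6 → V) → ℝ) : ℝ :=
  ∑ y : Fin 6 → V, (∏ a, wa a (y a)) * f y

variable {wa : Fin 6 → V → ℝ}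

theorem Et_congr {f g : (Fin 6 → V) → ℝ} (h : ∀ y, f y = g y) : Et wa f = Et wa g := by
  unfold Et
  exact sum_congr rfl fun y _ => by rw [h y]

theorem Et_add (f g : (Fin 6 → V) → ℝ) : Et wa (fun y => f y + g y) = Et wa f + Et wa g := by
  unfold Et
  rw [← sum_add_distrib]
  exact sum_congr rfl fun y _ => by ring

theorem Et_sub (f g : (Fin 6 → V) → ℝ) : Et wa (fun y => f y - g y) = Et wa f - Et wa g := by
  unfold Et
  rw [← sum_sub_distrib]
  exact sum_congr rfl fun y _ => by ring

theorem Et_mul (c : ℝ) (f : (Fin 6 → V) → ℝ) : Et wa (fun y => c * f y) = c * Et wa f := by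
  unfold Et
  rw [mul_sum]
  exact sum_congr rfl fun y _ => by ring

theorem Et_sum {ι : Type} (s : Finset ι) (f : ι → (Fin 6 → V) → ℝ) :
    Et wa (fun y => ∑ i ∈ s, f i y) = ∑ i ∈ s, Et wa (f i) := by
  unfold Et
  rw [sum_comm]
  exact sum_congr rfl fun y _ => by rw [mul_sum]

theorem Et_lsum {α : Type} (f : α → (Fin 6 → V) → ℝ) : ∀ l : List α,
    Et wa (fun y => (l.map fun x => f x y).sum) = (l.map fun x => Et wa (f x)).sum
  | [] => by
    unfold Et
    simp
  | x :: l => by
    simp only [List.map_cons, List.sum_cons]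
    rw [← Et_lsum f l, ← Et_add]

theorem Et_mono (h : Wa wa) {f g : (Fin 6 → V) → ℝ} (hfg : ∀ y, f y ≤ g y) :
    Et wa f ≤ Et wa g :=
  sum_le_sum fun y _ => mul_le_mul_of_nonneg_left (hfg y) (prod_nonneg fun a _ => h.nn a _)

theorem Et_prod (g : Fin 6 → V → ℝ) :
    Et wa (fun y => ∏ a, g a (y a)) = ∏ a, ∑ v, wa a v * g a v := by
  unfold Et
  rw [Finset.prod_univ_sum]
  rw [Fintype.piFinset_univ]
  exact sum_congr rfl fun y _ => by rw [prod_mul_distrib]

theorem Et_const (h : Wa wa) (c : ℝ) : Et wa (fun _ => c) = c := by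
  have h1 : Et wa (fun _ => (1 : ℝ)) = 1 := by
    have := Et_prod (wa := wa) (fun _ _ => (1 : ℝ))
    simp only [prod_const_one, mul_one] at this
    rw [this]
    exact prod_eq_one fun a _ => h.one a
  have h2 := Et_mul (wa := wa) c (fun _ => (1 : ℝ))
  simp only [mul_one] at h2
  rw [h2, h1, mul_one]

theorem Et_nonneg (h : Wa wa) {f : (Fin 6 → V) → ℝ} (hf : ∀ y, 0 ≤ f y) : 0 ≤ Et wa f := by
  rw [← Et_const h 0]
  exact Et_mono h hf

/-- Independence. -/
theorem Et_indep (h : Wa wa) (p : Fin 6 → Prop) [DecidablePred p] {f g : (Fin 6 → V) → ℝ}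
    (hf : ∀ y y', (∀ a, p a → y a = y' a) → f y = f y')
    (hg : ∀ y y', (∀ a, ¬ p a → y a = y' a) → g y = g y') :
    Et wa (fun y => f y * g y) = Et wa f * Et wa g := by
  have hne : Nonempty V := by
    by_contra hn
    rw [not_nonempty_iff] at hn
    have := h.one 0
    rw [Fintype.sum_empty] at this
    exact zero_ne_one this
  obtain ⟨v0⟩ := hne
  let e := Equiv.piEquivPiSubtypeProd (fun a : Fin 6 => p a) (fun _ => V)
  have key : ∀ F : (Fin 6 → V) → ℝ, Et wa F = ∑ u, ∑ v,
      ((∏ a : {a : Fin 6 // p a}, wa a (u a)) * ∏ a : {a : Fin 6 // ¬ p a}, wa a (v a)) *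
        F (e.symm (u, v)) := by
    intro F
    unfold Et
    rw [← Equiv.sum_comp e.symm, Fintype.sum_prod_type]
    refine sum_congr rfl fun u _ => sum_congr rfl fun v _ => ?_
    congr 1
    rw [← Fintype.prod_subtype_mul_prod_subtype (fun a : Fin 6 => p a)
      (fun a => wa a (e.symm (u, v) a))]
    congr 1
    · refine Finset.prod_bij (fun a _ => a) (fun _ _ => @Finset.mem_univ _ _ _)
        (fun _ _ _ _ h => h) (fun b _ => ⟨b, @Finset.mem_univ _ _ _, rfl⟩) fun a _ => ?_
      have : e.symm (u, v) a = u a := by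
        simp [e, Equiv.piEquivPiSubtypeProd, a.2]
      rw [this]
    · refine Finset.prod_bij (fun a _ => a) (fun _ _ => @Finset.mem_univ _ _ _)
        (fun _ _ _ _ h => h) (fun b _ => ⟨b, @Finset.mem_univ _ _ _, rfl⟩) fun a _ => ?_
      have : e.symm (u, v) a = v a := by
        simp [e, Equiv.piEquivPiSubtypeProd, a.2]
      rw [this]
  have hf' : ∀ u v v', f (e.symm (u, v)) = f (e.symm (u, v')) := by
    intro u v v'
    refine hf _ _ fun a ha => ?_
    simp [e, Equiv.piEquivPiSubtypeProd, ha]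
  have hg' : ∀ u u' v, g (e.symm (u, v)) = g (e.symm (u', v)) := by
    intro u u' v
    refine hg _ _ fun a ha => ?_
    simp [e, Equiv.piEquivPiSubtypeProd, ha]
  have p1 : ∑ u : {a : Fin 6 // p a} → V, ∏ a : {a : Fin 6 // p a}, wa a (u a) = 1 := by
    have := Finset.prod_univ_sum (fun _ : {a : Fin 6 // p a} => (univ : Finset V))
      (fun a v => wa a v)
    rw [Fintype.piFinset_univ] at this
    rw [← this]
    exact prod_eq_one fun a _ => h.one a
  have p2 : ∑ u : {a : Fin 6 // ¬ p a} → V, ∏ a : {a : Fin 6 // ¬ p a}, wa a (u a) = 1 := by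
    have := Finset.prod_univ_sum (fun _ : {a : Fin 6 // ¬ p a} => (univ : Finset V))
      (fun a v => wa a v)
    rw [Fintype.piFinset_univ] at this
    rw [← this]
    exact prod_eq_one fun a _ => h.one a
  have ef : Et wa f = ∑ u : {a : Fin 6 // p a} → V,
      (∏ a : {a : Fin 6 // p a}, wa a (u a)) * f (e.symm (u, fun _ => v0)) := by
    rw [key]
    refine sum_congr rfl fun u _ => ?_
    have : ∀ v, ((∏ a : {a : Fin 6 // p a}, wa a (u a)) *
        ∏ a : {a : Fin 6 // ¬ p a}, wa a (v a)) * f (e.symm (u, v)) =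
        ((∏ a : {a : Fin 6 // p a}, wa a (u a)) * f (e.symm (u, fun _ => v0))) *
          ∏ a : {a : Fin 6 // ¬ p a}, wa a (v a) := by
      intro v
      rw [hf' u v (fun _ => v0)]
      ring
    rw [sum_congr rfl fun v _ => this v, ← mul_sum, p2, mul_one]
  have eg : Et wa g = ∑ v : {a : Fin 6 // ¬ p a} → V,
      (∏ a : {a : Fin 6 // ¬ p a}, wa a (v a)) * g (e.symm (fun _ => v0, v)) := by
    rw [key, sum_comm]
    refine sum_congr rfl fun v _ => ?_
    have : ∀ u, ((∏ a : {a : Fin 6 // p a}, wa a (u a)) *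
        ∏ a : {a : Fin 6 // ¬ p a}, wa a (v a)) * g (e.symm (u, v)) =
        ((∏ a : {a : Fin 6 // ¬ p a}, wa a (v a)) * g (e.symm (fun _ => v0, v))) *
          ∏ a : {a : Fin 6 // p a}, wa a (u a) := by
      intro u
      rw [hg' u (fun _ => v0) v]
      ring
    rw [sum_congr rfl fun u _ => this u, ← mul_sum, p1, mul_one]
  rw [ef, eg, key, sum_mul_sum]
  refine sum_congr rfl fun u _ => sum_congr rfl fun v _ => ?_
  rw [hf' u v (fun _ => v0), hg' u (fun _ => v0) v]
  ring

/-! ## Marginals -/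

theorem Et_one (h : Wa wa) (a : Fin 6) (F : V → ℝ) :
    Et wa (fun y => F (y a)) = ∑ x, wa a x * F x := by
  have h1 := Et_prod (wa := wa) (fun c v => if c = a then F v else 1)
  have h2 : ∀ y : Fin 6 → V, (∏ c, if c = a then F (y c) else (1 : ℝ)) = F (y a) := by
    intro y
    rw [Finset.prod_ite_eq' univ a (fun c => F (y c))]
    simp
  simp only [h2] at h1
  rw [h1, Finset.prod_eq_single a]
  · simp
  · intro c _ hc
    simp only [if_neg hc, mul_one]
    exact h.one c
  · intro hc
    exact absurd (mem_univ a) hc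

end

end KI
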