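import Pool.Agent.Helper35.KI.I2
import Pool.Agent.Helper35.KI.I3

set_option autoImplicit false

/-!
# The index step

`v` is any vertex, the six classes are given by probability weights. `D = 5 - (expected number of
pairs of the link of v in a random transversal)`, `r` is the expected number of missing blocks, and
`Δ i` the expected number of pairs of the pentagon of `i` which are not in the link. Then
`(1 - D - 3 r / 2) Δ i ≤ 2 D + 4 r` for some `i`.
-/

open Finset

namespace KI

open KF

section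
variable {V : Type} [Fintype V]
variable {wa : Fin 6 → V → ℝ}

theorem b2r_and (a b : Bool) : b2r (a && b) = b2r a * b2r b := by
  unfold b2r
  cases a <;> cases b <;> simp

theorem b2r_not' (a : Bool) : b2r (!a) = 1 - b2r a := by
  unfold b2r
  cases a <;> simp

theorem b2r_nn (a : Bool) : 0 ≤ b2r a := by
  unfold b2r
  split <;> norm_num

theorem b2r_le (a : Bool) : b2r a ≤ 1 := by
  unfold b2r
  split <;> norm_num

theorem b2r_mono {a b : Bool} (h : a = true → b = true) : b2r a ≤ b2r b := by
  cases a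
  · exact b2r_nn b
  · rw [h rfl]

theorem countP_b2r {α : Type} (p : α → Bool) : ∀ l : List α,
    ((l.countP p : ℕ) : ℝ) = (l.map fun x => b2r (p x)).sum
  | [] => by simp
  | x :: l => by
    rw [List.countP_cons, List.map_cons, List.sum_cons, ← countP_b2r p l]
    cases h : p x
    · simp [b2r]
    · simp [b2r]
      ring

/-- First class of a pair. -/
def pa (e : ℕ) : Fin 6 := ([0, 0, 1, 0, 1, 2, 0, 1, 2, 3, 0, 1, 2, 3, 4] : List (Fin 6)).getD e 0
/-- Second class of a pair. -/
def pb (e : ℕ) : Fin 6 := ([1, 2, 2, 3, 3, 3, 4, 4, 4, 4, 5, 5, 5, 5, 5] : List (Fin 6)).getD e 0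
/-- The classes of a block. -/
def bl (k : ℕ) : Fin 6 × Fin 6 × Fin 6 :=
  ([(0, 1, 2), (0, 1, 3), (0, 2, 4), (0, 3, 5), (0, 4, 5), (1, 2, 5), (1, 3, 4), (1, 4, 5),
    (2, 3, 4), (2, 3, 5)] : List (Fin 6 × Fin 6 × Fin 6)).getD k (0, 0, 0)

/-- Pattern of the link of `v`. -/
def tp (E : V → V → V → Bool) (v : V) (y : Fin 6 → V) (e : ℕ) : Bool :=
  E v (y (pa e)) (y (pb e))

/-- Missing blocks. -/
def mp (E : V → V → V → Bool) (y : Fin 6 → V) (k : ℕ) : Bool :=
  !E (y (bl k).1) (y (bl k).2.1) (y (bl k).2.2)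

theorem tris_tab : ∀ x ∈ tris, pa x.1 = pa x.2.1 ∧ pb x.1 = pa x.2.2 ∧ pb x.2.1 = pb x.2.2 := by
  decide +kernel

theorem blk_tab : ∀ k < 10, pa (blk.getD k (0, 0, 0)).1 = (bl k).1 ∧
    pb (blk.getD k (0, 0, 0)).1 = (bl k).2.1 ∧ pa (blk.getD k (0, 0, 0)).2.1 = (bl k).1 ∧
    pb (blk.getD k (0, 0, 0)).2.1 = (bl k).2.2 ∧ pa (blk.getD k (0, 0, 0)).2.2 = (bl k).2.1 ∧
    pb (blk.getD k (0, 0, 0)).2.2 = (bl k).2.2 := by decide +kernel

theorem ents_tab : ∀ x ∈ ents, (∀ q ∈ x.r, pa q.1 ≠ pa x.e ∧ pa q.1 ≠ pb x.e ∧ pb q.1 ≠ pa x.e ∧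
    pb q.1 ≠ pb x.e) ∧ (∀ k ∈ x.b, (bl k).1 ≠ pa x.e ∧ (bl k).1 ≠ pb x.e ∧ (bl k).2.1 ≠ pa x.e ∧
    (bl k).2.1 ≠ pb x.e ∧ (bl k).2.2 ≠ pa x.e ∧ (bl k).2.2 ≠ pb x.e) := by decide +kernel

theorem ents_c5 : ∀ x ∈ ents, x.i < 6 ∧ (∀ q ∈ x.r, (c5.getD x.i 0).testBit q.1 = q.2) ∧
    (c5.getD x.i 0).testBit x.e = true := by
  decide +kernel

omit [Fintype V] in
theorem valid {E : V → V → V → Bool} (hE : K4m E) (v : V) (y : Fin 6 → V) :
    Val (tp E v y) (mp E y) := by
  have tf : ∀ a b c, E v a b = true → E v a c = true → E v b c = true → False :=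
    fun a b c h1 h2 h3 => hE.free v a b c h1 h2 h3
  have pf : ∀ a b c, E v a b = true → E v a c = true → E a b c = true → False := by
    intro a b c h1 h2 h3
    refine hE.free a v b c ?_ ?_ h3
    · rw [hE.s12]; exact h1
    · rw [hE.s12]; exact h2
  refine ⟨fun x hx => ?_, fun k hk h => ?_⟩
  · obtain ⟨h1, h2, h3⟩ := tris_tab x hx
    by_contra hc
    have hc' : (tp E v y x.1 && (tp E v y x.2.1 && tp E v y x.2.2)) = true := by
      cases hh : (tp E v y x.1 && (tp E v y x.2.1 && tp E v y x.2.2))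
      · exact absurd hh hc
      · rfl
    simp only [Bool.and_eq_true] at hc'
    obtain ⟨g1, g2, g3⟩ := hc'
    unfold tp at g1 g2 g3
    rw [← h1, h3] at g2
    rw [← h2] at g3
    exact tf _ _ _ g1 g2 g3
  · obtain ⟨h1, h2, h3, h4, h5, h6⟩ := blk_tab k hk
    unfold two two3 tp at h
    rw [h1, h2, h3, h4, h5, h6] at h
    unfold mp
    by_contra hc
    have hc' : E (y (bl k).1) (y (bl k).2.1) (y (bl k).2.2) = true := by
      cases hh : E (y (bl k).1) (y (bl k).2.1) (y (bl k).2.2)
      · rw [hh] at hc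
        exact absurd rfl hc
      · rfl
    simp only [Bool.or_eq_true, Bool.and_eq_true] at h
    rcases h with (⟨g1, g2⟩ | ⟨g1, g2⟩) | ⟨g1, g2⟩
    · exact pf _ _ _ g1 g2 hc'
    · refine pf (y (bl k).2.1) (y (bl k).1) (y (bl k).2.2) ?_ g2 ?_
      · rw [hE.s23]; exact g1
      · rw [hE.s12]; exact hc'
    · refine pf (y (bl k).2.2) (y (bl k).1) (y (bl k).2.1) ?_ ?_ ?_
      · rw [hE.s23]; exact g1
      · rw [hE.s23]; exact g2
      · rw [hE.s12, hE.s23]; exact hc'

/-- Density of a pair in the link of `v`. -/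
noncomputable def pe (wa : Fin 6 → V → ℝ) (E : V → V → V → Bool) (v : V) (e : ℕ) : ℝ :=
  Et wa fun y => b2r (tp E v y e)

/-- Probability that a block is missing. -/
noncomputable def re (wa : Fin 6 → V → ℝ) (E : V → V → V → Bool) (k : ℕ) : ℝ :=
  Et wa fun y => b2r (mp E y k)

/-- Sum over the pairs of a pentagon of the missing part. -/
noncomputable def De (wa : Fin 6 → V → ℝ) (E : V → V → V → Bool) (v : V) (i : ℕ) : ℝ :=
  ((ents.filter fun x => x.i == i).map fun x => 1 - pe wa E v x.e).sum

theorem pe_le (h : Wa wa) (E : V → V → V → Bool) (v : V) (e : ℕ) : pe wa E v e ≤ 1 := by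
  unfold pe
  rw [← Et_const h 1]
  exact Et_mono h fun y => b2r_le _

theorem De_nonneg (h : Wa wa) (E : V → V → V → Bool) (v : V) (i : ℕ) : 0 ≤ De wa E v i := by
  unfold De
  refine List.sum_nonneg fun z hz => ?_
  obtain ⟨x, _, rfl⟩ := List.mem_map.1 hz
  linarith [pe_le h E v x.e]

theorem pe_nonneg (h : Wa wa) (E : V → V → V → Bool) (v : V) (e : ℕ) : 0 ≤ pe wa E v e := by
  unfold pe
  exact Et_nonneg h fun y => b2r_nn _

/-- One entry. -/
theorem entry (h : Wa wa) (E : V → V → V → Bool) (v : V) {x : Ent} (hx : x ∈ ents) :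
    Et wa (fun y => b2r (prf (tp E v y) (mp E y) x.i)) * (1 - pe wa E v x.e) ≤
      pe wa E v x.e * Et wa (fun y => b2r (cnd (tp E v y) (mp E y) x)) := by
  obtain ⟨t1, t2⟩ := ents_tab x hx
  obtain ⟨l1, l2, l3⟩ := ents_lt x hx
  obtain ⟨c1, c2, c3⟩ := ents_c5 x hx
  set f : (Fin 6 → V) → ℝ := fun y => b2r ((x.r.all fun q => tp E v y q.1 == q.2) &&
    x.b.all fun k => !mp E y k) with hf
  have hdep : ∀ y y' : Fin 6 → V, (∀ a, ¬ (a = pa x.e ∨ a = pb x.e) → y a = y' a) →
      f y = f y' := by
    intro y y' hy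
    have a1 : (x.r.all fun q => tp E v y q.1 == q.2) = x.r.all fun q => tp E v y' q.1 == q.2 := by
      rw [Bool.eq_iff_iff]
      simp only [List.all_eq_true]
      refine forall₂_congr fun q hq => ?_
      obtain ⟨g1, g2, g3, g4⟩ := t1 q hq
      unfold tp
      rw [hy _ (by rintro (hh | hh); exacts [g1 hh, g2 hh]),
        hy _ (by rintro (hh | hh); exacts [g3 hh, g4 hh])]
    have a2 : (x.b.all fun k => !mp E y k) = x.b.all fun k => !mp E y' k := by
      rw [Bool.eq_iff_iff]
      simp only [List.all_eq_true]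
      refine forall₂_congr fun k hk => ?_
      obtain ⟨g1, g2, g3, g4, g5, g6⟩ := t2 k hk
      unfold mp
      rw [hy _ (by rintro (hh | hh); exacts [g1 hh, g2 hh]),
        hy _ (by rintro (hh | hh); exacts [g3 hh, g4 hh]),
        hy _ (by rintro (hh | hh); exacts [g5 hh, g6 hh])]
    rw [hf]
    simp only
    rw [a1, a2]
  have e1 : Et wa (fun y => b2r (cnd (tp E v y) (mp E y) x)) =
      Et wa (fun y => b2r (!tp E v y x.e) * f y) :=
    Et_congr fun y => by rw [hf]; unfold cnd; rw [b2r_and]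
  have e2 : Et wa (fun y => b2r (!tp E v y x.e) * f y) =
      Et wa (fun y => b2r (!tp E v y x.e)) * Et wa f := by
    refine Et_indep h (fun a => a = pa x.e ∨ a = pb x.e) ?_ hdep
    intro y y' hy
    unfold tp
    rw [hy _ (Or.inl rfl), hy _ (Or.inr rfl)]
  have e2' : Et wa (fun y => b2r (tp E v y x.e) * f y) = pe wa E v x.e * Et wa f := by
    refine Et_indep h (fun a => a = pa x.e ∨ a = pb x.e) ?_ hdep
    intro y y' hy
    unfold tp
    rw [hy _ (Or.inl rfl), hy _ (Or.inr rfl)]
  have e3 : Et wa (fun y => b2r (!tp E v y x.e)) = 1 - pe wa E v x.e := by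
    have : Et wa (fun y => b2r (!tp E v y x.e)) = Et wa (fun y => 1 - b2r (tp E v y x.e)) :=
      Et_congr fun y => b2r_not' _
    rw [this, Et_sub, Et_const h]
    rfl
  have e4 : Et wa (fun y => b2r (prf (tp E v y) (mp E y) x.i)) ≤ pe wa E v x.e * Et wa f := by
    rw [← e2']
    refine Et_mono h fun y => ?_
    rw [hf]
    simp only
    rw [← b2r_and]
    refine b2r_mono fun hh => ?_
    unfold prf at hh
    simp only [Bool.and_eq_true, List.all_eq_true, List.mem_range] at hh ⊢
    refine ⟨?_, fun q hq => ?_, fun k hk => hh.2 k (l3 k hk)⟩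
    · have := hh.1 x.e l1
      rw [c3] at this
      simpa using this
    · have := hh.1 q.1 (l2 q hq)
      rw [c2 q hq] at this
      exact this
  rw [e1, e2, e3]
  have := mul_le_mul_of_nonneg_right e4 (by linarith [pe_le h E v x.e] : 0 ≤ 1 - pe wa E v x.e)
  linarith

/-- A form of the inequality between the arithmetic and the harmonic mean, for two terms. -/
theorem two_am {W p q c d : ℝ} (hW : 0 ≤ W) (hp : 0 ≤ p) (hq : 0 ≤ q) (hc : 0 ≤ c) (hd : 0 ≤ d)
    (h1 : W * (1 - p) ≤ p * c) (h2 : W * (1 - q) ≤ q * d) :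
    W * (2 - p - q) ≤ c * q + d * p := by
  rcases eq_or_lt_of_le hp with hp0 | hp0
  · subst hp0
    have : W = 0 := by nlinarith
    subst this
    have := mul_nonneg hc hq
    linarith
  rcases eq_or_lt_of_le hq with hq0 | hq0
  · subst hq0
    have : W = 0 := by nlinarith
    subst this
    have := mul_nonneg hd hp
    linarith
  have g1 : W * (1 - p) * q * q ≤ p * c * q * q :=
    mul_le_mul_of_nonneg_right (mul_le_mul_of_nonneg_right h1 hq) hq
  have g2 : W * (1 - q) * p * p ≤ q * d * p * p :=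
    mul_le_mul_of_nonneg_right (mul_le_mul_of_nonneg_right h2 hp) hp
  have g3 : 0 ≤ W * (p - q) ^ 2 := mul_nonneg hW (sq_nonneg _)
  have hpq : 0 < p * q := mul_pos hp0 hq0
  by_contra hcon
  push Not at hcon
  have := mul_lt_mul_of_pos_left hcon hpq
  nlinarith

theorem list_am {α : Type} {W : ℝ} (hW : 0 ≤ W) (p c : α → ℝ) : ∀ l : List α,
    (∀ x ∈ l, 0 ≤ p x ∧ 0 ≤ c x ∧ W * (1 - p x) ≤ p x * c x) →
    (l.length : ℝ) * (W * (l.map fun x => 1 - p x).sum) ≤ (l.map c).sum * (l.map p).sum
  | [], _ => by simp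
  | x :: l, h => by
    have ih := list_am hW p c l fun z hz => h z (List.mem_cons_of_mem _ hz)
    obtain ⟨x1, x2, x3⟩ := h x (by simp)
    have cross : ∀ l' : List α, (∀ z ∈ l', 0 ≤ p z ∧ 0 ≤ c z ∧ W * (1 - p z) ≤ p z * c z) →
        W * ((l'.length : ℝ) * (1 - p x) + (l'.map fun z => 1 - p z).sum) ≤
          c x * (l'.map p).sum + (l'.map c).sum * p x := by
      intro l'
      induction l' with
      | nil => intro _; simp
      | cons z l' ih' =>
        intro hl
        have i1 := ih' fun u hu => hl u (List.mem_cons_of_mem _ hu)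
        obtain ⟨z1, z2, z3⟩ := hl z (by simp)
        have i2 := two_am hW x1 z1 x2 z2 x3 z3
        simp only [List.map_cons, List.sum_cons, List.length_cons]
        push_cast
        nlinarith
    have h2 := cross l fun z hz => h z (List.mem_cons_of_mem _ hz)
    simp only [List.map_cons, List.sum_cons, List.length_cons]
    push_cast
    nlinarith

theorem ents_len : ∀ i < 6, (ents.filter fun x => x.i == i).length = 5 := by decide +kernel

/-- One index. -/
theorem index_one (h : Wa wa) (E : V → V → V → Bool) (v : V) {i : ℕ} (hi : i < 6) :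
    Et wa (fun y => b2r (prf (tp E v y) (mp E y) i)) * De wa E v i ≤
      (1 - De wa E v i / 5) * ((ents.filter fun x => x.i == i).map fun x =>
        Et wa (fun y => b2r (cnd (tp E v y) (mp E y) x))).sum := by
  have h1 := list_am (W := Et wa (fun y => b2r (prf (tp E v y) (mp E y) i)))
    (Et_nonneg h fun y => b2r_nn _) (fun x : Ent => pe wa E v x.e)
    (fun x => Et wa (fun y => b2r (cnd (tp E v y) (mp E y) x)))
    (ents.filter fun x => x.i == i) fun x hx => by
      obtain ⟨hx1, hx2⟩ := List.mem_filter.1 hx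
      have hx3 : x.i = i := by simpa using hx2
      refine ⟨pe_nonneg h E v _, Et_nonneg h fun y => b2r_nn _, ?_⟩
      have := entry h E v hx1
      rwa [hx3] at this
  rw [ents_len i hi] at h1
  have h2 : ((ents.filter fun x => x.i == i).map fun x => pe wa E v x.e).sum =
      5 - De wa E v i := by
    have : ∀ l : List Ent, (l.map fun x => pe wa E v x.e).sum =
        (l.length : ℝ) - (l.map fun x => 1 - pe wa E v x.e).sum := by
      intro l
      induction l with
      | nil => simp
      | cons x l ih =>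
        simp only [List.map_cons, List.sum_cons, List.length_cons, ih]
        push_cast
        ring
    rw [this, ents_len i hi]
    unfold De
    norm_num
  rw [h2] at h1
  unfold De at h1 ⊢
  push_cast at h1
  linarith

/-- **The index step.** -/
theorem index_step {E : V → V → V → Bool} (hE : K4m E) (h : Wa wa) (v : V) :
    ∃ i < 6, (1 - (5 - ∑ e ∈ range 15, pe wa E v e) - 3 / 2 * ∑ k ∈ range 10, re wa E k) *
      De wa E v i ≤ (2 * (5 - ∑ e ∈ range 15, pe wa E v e) + 4 * ∑ k ∈ range 10, re wa E k) *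
        (1 - De wa E v i / 5) := by
  set P := ∑ e ∈ range 15, pe wa E v e with hP
  set R := ∑ k ∈ range 10, re wa E k with hR
  have lr : ∀ (n : ℕ) (f : ℕ → ℝ), ((List.range n).map f).sum = ∑ e ∈ range n, f e := by
    intro n f
    rw [Finset.sum_range, ← List.sum_ofFn, List.ofFn_eq_map]
    congr 1
    rw [← List.map_coe_finRange_eq_range, List.map_map]
    rfl
  have hnt : Et wa (fun y => ((nt (tp E v y) : ℕ) : ℝ)) = P := by
    rw [hP, ← lr]
    have : ∀ y, ((nt (tp E v y) : ℕ) : ℝ) = ((List.range 15).map fun e => b2r (tp E v y e)).sum :=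
      fun y => countP_b2r _ _
    rw [Et_congr this, Et_lsum (fun e y => b2r (tp E v y e))]
    rfl
  have hnm : Et wa (fun y => ((nm (mp E y) : ℕ) : ℝ)) = R := by
    rw [hR, ← lr]
    have : ∀ y, ((nm (mp E y) : ℕ) : ℝ) = ((List.range 10).map fun e => b2r (mp E y e)).sum :=
      fun y => countP_b2r _ _
    rw [Et_congr this, Et_lsum (fun e y => b2r (mp E y e))]
    rfl
  have hnn : Et wa (fun y => ((nn (tp E v y) (mp E y) : ℕ) : ℝ)) =
      (ents.map fun x => Et wa fun y => b2r (cnd (tp E v y) (mp E y) x)).sum := by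
    have : ∀ y, ((nn (tp E v y) (mp E y) : ℕ) : ℝ) =
        (ents.map fun x => b2r (cnd (tp E v y) (mp E y) x)).sum := fun y => countP_b2r _ _
    rw [Et_congr this, Et_lsum (fun x y => b2r (cnd (tp E v y) (mp E y) x))]
  have hpr : Et wa (fun y => (((List.range 6).countP (prf (tp E v y) (mp E y)) : ℕ) : ℝ)) =
      ∑ i ∈ range 6, Et wa (fun y => b2r (prf (tp E v y) (mp E y) i)) := by
    rw [← lr]
    have : ∀ y, (((List.range 6).countP (prf (tp E v y) (mp E y)) : ℕ) : ℝ) =
        ((List.range 6).map fun i => b2r (prf (tp E v y) (mp E y) i)).sum :=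
      fun y => countP_b2r _ _
    rw [Et_congr this, Et_lsum (fun i y => b2r (prf (tp E v y) (mp E y) i))]
  -- first inequality
  have i1 : (ents.map fun x => Et wa fun y => b2r (cnd (tp E v y) (mp E y) x)).sum ≤
      10 + 4 * R - 2 * P := by
    rw [← hnn, ← hnt, ← hnm, ← Et_mul, ← Et_mul, ← Et_const h 10, ← Et_add, ← Et_sub]
    refine Et_mono h fun y => ?_
    have := pt1 (valid hE v y)
    have : ((nn (tp E v y) (mp E y) : ℕ) : ℝ) + 2 * (nt (tp E v y) : ℕ) ≤
        10 + 4 * (nm (mp E y) : ℕ) := by exact_mod_cast this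
    linarith
  -- second inequality
  have i2 : 2 * P + 2 ≤ 10 + 2 * (∑ i ∈ range 6,
      Et wa (fun y => b2r (prf (tp E v y) (mp E y) i))) + 3 * R := by
    have g : Et wa (fun y => 2 * ((nt (tp E v y) : ℕ) : ℝ) + 2) ≤
        Et wa (fun y => 10 + 2 * (((List.range 6).countP (prf (tp E v y) (mp E y)) : ℕ) : ℝ) +
          3 * ((nm (mp E y) : ℕ) : ℝ)) := by
      refine Et_mono h fun y => ?_
      exact_mod_cast pt2 (valid hE v y)
    rw [Et_add, Et_mul, Et_const h, hnt, Et_add, Et_add, Et_mul, Et_mul, Et_const h, hnm, hpr] at g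
    exact g
  -- the sum over the entries
  set C : Ent → ℝ := fun x => Et wa fun y => b2r (cnd (tp E v y) (mp E y) x) with hC
  have hC0 : ∀ x, 0 ≤ C x := fun x => Et_nonneg h fun y => b2r_nn _
  have i3 : ∑ i ∈ range 6, ((ents.filter fun x => x.i == i).map C).sum = (ents.map C).sum := by
    have g2 : ∀ (l : List Ent), (∀ x ∈ l, x.i < 6) →
        ∑ i ∈ range 6, ((l.filter fun x => x.i == i).map C).sum = (l.map C).sum := by
      intro l
      induction l with
      | nil => intro _; simp
      | cons x l ih =>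
        intro hl
        rw [List.map_cons, List.sum_cons, ← ih fun z hz => hl z (List.mem_cons_of_mem _ hz)]
        have hx : x.i < 6 := hl x (by simp)
        have : ∀ i ∈ range 6, (((x :: l).filter fun x => x.i == i).map C).sum =
            (if x.i = i then C x else 0) + ((l.filter fun x => x.i == i).map C).sum := by
          intro i _
          by_cases hi : x.i = i
          · rw [List.filter_cons_of_pos (by simp [hi]), List.map_cons, List.sum_cons, if_pos hi]
          · rw [List.filter_cons_of_neg (by simp [hi]), if_neg hi]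
            ring
        rw [sum_congr rfl this, sum_add_distrib]
        congr 1
        rw [Finset.sum_ite_eq]
        rw [if_pos (mem_range.2 hx)]
    exact g2 ents fun x hx => (ents_c5 x hx).1
  obtain ⟨i, hi, hmin⟩ := Finset.exists_min_image (range 6) (De wa E v) ⟨0, by simp⟩
  refine ⟨i, mem_range.1 hi, ?_⟩
  have hD0 := De_nonneg h E v i
  have hle5 : De wa E v i ≤ 5 := by
    have : ∀ l : List Ent, (l.map fun x => 1 - pe wa E v x.e).sum ≤ (l.length : ℝ) := by
      intro l
      induction l with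
      | nil => simp
      | cons x l ih =>
        simp only [List.map_cons, List.sum_cons, List.length_cons]
        push_cast
        linarith [pe_nonneg h E v x.e]
    have := this (ents.filter fun x => x.i == i)
    rw [ents_len i (mem_range.1 hi)] at this
    unfold De
    exact_mod_cast this
  have i4 : ∀ j ∈ range 6, Et wa (fun y => b2r (prf (tp E v y) (mp E y) j)) * De wa E v i ≤
      (1 - De wa E v i / 5) * ((ents.filter fun x => x.i == j).map C).sum := by
    intro j hj
    have g1 := index_one h E v (mem_range.1 hj)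
    have g2 : 0 ≤ ((ents.filter fun x => x.i == j).map C).sum :=
      List.sum_nonneg fun z hz => by
        obtain ⟨x, _, rfl⟩ := List.mem_map.1 hz
        exact hC0 x
    have g3 := mul_le_mul_of_nonneg_left (hmin j hj)
      (Et_nonneg h fun y => b2r_nn (prf (tp E v y) (mp E y) j))
    have g4 := mul_le_mul_of_nonneg_right
      (by linarith [hmin j hj] : 1 - De wa E v j / 5 ≤ 1 - De wa E v i / 5) g2
    linarith
  have i5 := sum_le_sum i4
  rw [← sum_mul, ← mul_sum, i3] at i5
  have i6 : (1 - (5 - P) - 3 / 2 * R) * De wa E v i ≤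
      (∑ j ∈ range 6, Et wa (fun y => b2r (prf (tp E v y) (mp E y) j))) * De wa E v i :=
    mul_le_mul_of_nonneg_right (by linarith) hD0
  have i7 := mul_le_mul_of_nonneg_left i1 (by linarith : 0 ≤ 1 - De wa E v i / 5)
  linarith

end

end KI
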